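import Pool.Agent.Q295.Anch.Prob

/-!
# Anchored thin triangles in the hyperbolic Poisson Voronoi graph

Disproof of the anchored thin triangle property: for every intensity `lam > 0` and every
homogeneous Poisson process of intensity `lam` on the hyperbolic plane, almost surely the Voronoi
graph is connected and for EVERY vertex `x` and every real `δ` there is a geodesic triangle of the
graph with the vertex `x` that is not `δ`-thin. So no vertex `x` has, even on an event of positive
probability, a finite `δ_x` for which all geodesic triangles with the vertex `x` are `δ_x`-thin.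

`Pool.Agent.Y979.HV.IsPoissonProcess`, `cell` and `voronoiGraph` are the Poisson process, the
Voronoi cells and the graph in which two nuclei are adjacent when their cells share a geodesic
segment of positive length. `Q295.Anch.ThinTriangle` says that each vertex of each side is at graph
distance at most `δ` from a vertex of the union of the two other sides.
-/

set_option autoImplicit false

namespace Pool.Agent.Results.MP_c20824_pr.NotAnchoredThin

open MeasureTheory UpperHalfPlane Pool.Agent.Y979.HV Q295.Anch

theorem result {Ω : Type*} [MeasurableSpace Ω] (P : Measure Ω) [IsProbabilityMeasure P]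
    (lam : ℝ) (hlam : 0 < lam) (Q : Ω → Set ℍ) (hQ : IsPoissonProcess P lam Q) :
    ∀ᵐ ω ∂P, (voronoiGraph (Q ω)).Connected ∧ ∀ (x : Q ω) (δ : ℝ),
      ∃ (y z : Q ω) (p : (voronoiGraph (Q ω)).Walk x y) (q : (voronoiGraph (Q ω)).Walk y z)
        (r : (voronoiGraph (Q ω)).Walk z x),
        p.length = (voronoiGraph (Q ω)).dist x y ∧ q.length = (voronoiGraph (Q ω)).dist y z ∧
        r.length = (voronoiGraph (Q ω)).dist z x ∧
        ¬ ThinTriangle (voronoiGraph (Q ω)) δ p q r := by
  have h1 : ∀ n : ℕ, ∀ᵐ ω ∂P, 0 < n → ∃ s : ℕ, GridOK (Q ω) ((2 : ℝ) ^ s) n := by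
    intro n
    rcases Nat.eq_zero_or_pos n with h0 | h0
    · exact Filter.Eventually.of_forall fun ω h => absurd h (by omega)
    · filter_upwards [ae_grid hQ hlam h0] with ω hω _
      exact hω
  filter_upwards [ae_all_iff.mpr h1, ae_locFin hQ hlam, ae_nonempty hQ hlam] with ω e1 e2 e3
  refine ⟨connected_of_locFin e2 e3, fun x δ => ?_⟩
  have h2 := not_anchoredThin e2 e3 e1 x δ
  unfold AnchoredThin at h2
  push Not at h2
  obtain ⟨y, z, p, q, r, hp, hq, hr, h⟩ := h2
  exact ⟨y, z, p, q, r, hp, hq, hr, h⟩

end Pool.Agent.Results.MP_c20824_pr.NotAnchoredThin
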